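import Mathlib
import Pool.Agent.H71.AAE.Defs
import Pool.Agent.H71.AAE.H2
import Pool.Agent.H71.AAE.M2
import Pool.Agent.H71.AAE.M4
import Pool.Agent.H85.AAE2.Defs

/-! # Project AAE2 (MP_ae801b_ag), module MB: application of the key lemma -/

set_option autoImplicit false

open Polynomial

namespace Pool.Agent.H36.AAE2

open Pool.Agent.H71.AAE Pool.Agent.H85.AAE2

universe u

section Theta

variable {k : Type u} [Field k] {N m : ℕ}
  {φ : (MvPolynomial (Fin N) k)[X] →ₐ[k] MvPolynomial (Fin m) k}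
  {s p : MvPolynomial (Fin N) k}

theorem degree_aa : (aa s p).degree = 2 := by
  have : aa s p = X ^ 2 + (C (-s) * X + C p) := by
    unfold aa
    rw [C_neg]
    ring
  rw [this, degree_add_eq_left_of_degree_lt]
  · simp
  · rw [degree_X_pow]
    exact lt_of_le_of_lt degree_linear_le (by norm_num)

theorem th_decomp (q : (MvPolynomial (Fin N) k)[X]) (h₁ h₀ : MvPolynomial (Fin N) k) :
    Th (φ : (MvPolynomial (Fin N) k)[X] →+* MvPolynomial (Fin m) k) (aa s p) (q * aa s p + (C h₁ * X + C h₀)) =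
      φ (C h₁) := by
  have h1 := (div_modByMonic_unique (f := q * aa s p + (C h₁ * X + C h₀)) q
    (C h₁ * X + C h₀) (aa_monic s p) ⟨by ring, by
      rw [degree_aa]
      exact lt_of_le_of_lt degree_linear_le (by norm_num)⟩).2
  unfold Th
  rw [h1]
  simp

theorem th_lin (h₁ h₀ : MvPolynomial (Fin N) k) :
    Th (φ : (MvPolynomial (Fin N) k)[X] →+* MvPolynomial (Fin m) k) (aa s p) (C h₁ * X + C h₀) = φ (C h₁) := by
  have := th_decomp (φ := φ) (s := s) (p := p) 0 h₁ h₀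
  rwa [zero_mul, zero_add] at this

theorem th_add (h h' : (MvPolynomial (Fin N) k)[X]) :
    Th (φ : (MvPolynomial (Fin N) k)[X] →+* MvPolynomial (Fin m) k) (aa s p) (h + h') =
      Th (φ : (MvPolynomial (Fin N) k)[X] →+* MvPolynomial (Fin m) k) (aa s p) h +
      Th (φ : (MvPolynomial (Fin N) k)[X] →+* MvPolynomial (Fin m) k) (aa s p) h' := by
  unfold Th
  rw [add_modByMonic, coeff_add, C_add, map_add]

theorem th_zero : Th (φ : (MvPolynomial (Fin N) k)[X] →+* MvPolynomial (Fin m) k) (aa s p) 0 = 0 := by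
  unfold Th
  rw [zero_modByMonic, coeff_zero, C_0, map_zero]

theorem th_sum {ι : Type*} (t : Finset ι) (f : ι → (MvPolynomial (Fin N) k)[X]) :
    Th (φ : (MvPolynomial (Fin N) k)[X] →+* MvPolynomial (Fin m) k) (aa s p) (∑ i ∈ t, f i) =
      ∑ i ∈ t, Th (φ : (MvPolynomial (Fin N) k)[X] →+* MvPolynomial (Fin m) k) (aa s p) (f i) := by
  classical
  induction t using Finset.induction_on with
  | empty => rw [Finset.sum_empty, Finset.sum_empty, th_zero]
  | insert a t ha ih => rw [Finset.sum_insert ha, Finset.sum_insert ha, th_add, ih]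

theorem th_aa : Th (φ : (MvPolynomial (Fin N) k)[X] →+* MvPolynomial (Fin m) k) (aa s p) (aa s p) = 0 := by
  have := th_decomp (φ := φ) (s := s) (p := p) 1 0 0
  rwa [one_mul, C_0, zero_mul, zero_add, add_zero, map_zero] at this

theorem th_mem (hg : φ X ^ 2 = φ (C s) * φ X - φ (C p))
    (hS : ∀ b, ∃ α β : MvPolynomial (Fin N) k, b = φ (C α) + φ (C β) * φ X)
    {h : (MvPolynomial (Fin N) k)[X]} (hh : φ h = 0) :
    Th (φ : (MvPolynomial (Fin N) k)[X] →+* MvPolynomial (Fin m) k) (aa s p) h ∈ cond φ := by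
  obtain ⟨q, h₁, h₀, rfl⟩ := decomp s p h
  have h1 : φ (C h₀) = -(φ (C h₁) * φ X) := by
    rw [map_add, map_mul, phi_aa hg, mul_zero, zero_add, map_add, map_mul] at hh
    linear_combination hh
  rw [th_decomp]
  exact mem_cond_of hS (r := h₁) (r' := -h₀) rfl (by rw [C_neg, map_neg, h1, neg_neg])

theorem th_mul (hg : φ X ^ 2 = φ (C s) * φ X - φ (C p)) (x : (MvPolynomial (Fin N) k)[X])
    {h : (MvPolynomial (Fin N) k)[X]} (hh : φ h = 0) :
    Th (φ : (MvPolynomial (Fin N) k)[X] →+* MvPolynomial (Fin m) k) (aa s p) (x * h) =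
      phi' φ s x * Th (φ : (MvPolynomial (Fin N) k)[X] →+* MvPolynomial (Fin m) k) (aa s p) h := by
  obtain ⟨q, h₁, h₀, rfl⟩ := decomp s p h
  obtain ⟨q', x₁, x₀, rfl⟩ := decomp s p x
  have h1 : φ (C h₀) = -(φ (C h₁) * φ X) := by
    rw [map_add, map_mul, phi_aa hg, mul_zero, zero_add, map_add, map_mul] at hh
    linear_combination hh
  have h2 : (q' * aa s p + (C x₁ * X + C x₀)) * (q * aa s p + (C h₁ * X + C h₀)) =
      (q' * (q * aa s p + (C h₁ * X + C h₀)) + (C x₁ * X + C x₀) * q + C (x₁ * h₁)) * aa s p +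
      (C (x₁ * h₁ * s + x₁ * h₀ + x₀ * h₁) * X + C (x₀ * h₀ - x₁ * h₁ * p)) := by
    unfold aa
    simp only [C_add, C_mul, C_sub]
    ring
  rw [h2, th_decomp, th_decomp, map_add (phi' φ s), map_mul (phi' φ s), phi'_aa hg, mul_zero,
    zero_add, map_add (phi' φ s), map_mul (phi' φ s), phi'_C, phi'_C, phi'_X]
  simp only [map_add, map_mul, h1]
  ring

theorem d_mul (x : (MvPolynomial (Fin N) k)[X])
    {h : (MvPolynomial (Fin N) k)[X]} (hh : φ h = 0) :
    φ (derivative (x * h)) = φ x * φ (derivative h) := by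
  rw [derivative_mul, map_add, map_mul, map_mul, hh, mul_zero, zero_add]

theorem psi_mem (hφ : Function.Surjective φ) (hg : φ X ^ 2 = φ (C s) * φ X - φ (C p))
    (hS : ∀ b, ∃ α β : MvPolynomial (Fin N) k, b = φ (C α) + φ (C β) * φ X)
    {x : (MvPolynomial (Fin N) k)[X]} (hx : φ x ∈ cond φ) : phi' φ s x ∈ cond φ := by
  obtain ⟨ι, hι⟩ := exists_iota hφ hg hS
  obtain ⟨ρ, hρ⟩ := hx 1
  rw [mul_one] at hρ
  rw [← Ideal.Quotient.eq_zero_iff_mem, ← hι, ← hρ, hι, phi'_C, Ideal.Quotient.eq_zero_iff_mem,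
    hρ]
  exact hx

/-- the error ideal -/
theorem d_err {l : ℕ} {h : (MvPolynomial (Fin N) k)[X]}
    (hh : h ∈ (cond φ ^ l).comap φ * RingHom.ker φ ⊔ (RingHom.ker φ) ^ 2) :
    φ (derivative h) ∈ cond φ ^ l := by
  obtain ⟨a, ha, b, hb, rfl⟩ := Submodule.mem_sup.1 hh
  rw [derivative_add, map_add, derivative_sq hb, add_zero]
  induction ha using Submodule.mul_induction_on' with
  | mem_mul_mem x hx y hy =>
    rw [d_mul x (RingHom.mem_ker.1 hy)]
    exact Ideal.mul_mem_right _ _ hx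
  | add x _ y _ hx hy =>
    rw [derivative_add, map_add]
    refine Ideal.add_mem _ (hx ?_) (hy ?_)
    · exact Submodule.mem_sup_left ‹_› |> fun h => Ideal.add_mem _ h (Submodule.mem_sup_right hb)
    · exact Submodule.mem_sup_left ‹_› |> fun h => Ideal.add_mem _ h (Submodule.mem_sup_right hb)

theorem th_sq (hφ : Function.Surjective φ) (hg : φ X ^ 2 = φ (C s) * φ X - φ (C p))
    (hS : ∀ b, ∃ α β : MvPolynomial (Fin N) k, b = φ (C α) + φ (C β) * φ X)
    {h : (MvPolynomial (Fin N) k)[X]} (hh : h ∈ (RingHom.ker φ) ^ 2) :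
    Th (φ : (MvPolynomial (Fin N) k)[X] →+* MvPolynomial (Fin m) k) (aa s p) h ∈ cond φ ^ 2 := by
  rw [pow_two] at hh
  induction hh using Submodule.mul_induction_on' with
  | mem_mul_mem x hx y hy =>
    rw [th_mul hg x (RingHom.mem_ker.1 hy), pow_two]
    refine Ideal.mul_mem_mul (psi_mem hφ hg hS ?_) (th_mem hg hS (RingHom.mem_ker.1 hy))
    rw [RingHom.mem_ker.1 hx]
    exact Ideal.zero_mem _
  | add x _ y _ hx hy =>
    rw [th_add]
    exact Ideal.add_mem _ hx hy

theorem th_err (hφ : Function.Surjective φ) (hg : φ X ^ 2 = φ (C s) * φ X - φ (C p))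
    (hS : ∀ b, ∃ α β : MvPolynomial (Fin N) k, b = φ (C α) + φ (C β) * φ X)
    {l : ℕ} (hl : 1 ≤ l) {h : (MvPolynomial (Fin N) k)[X]}
    (hh : h ∈ (cond φ ^ l).comap φ * RingHom.ker φ ⊔ (RingHom.ker φ) ^ 2) :
    Th (φ : (MvPolynomial (Fin N) k)[X] →+* MvPolynomial (Fin m) k) (aa s p) h ∈ cond φ ^ 2 := by
  obtain ⟨a, ha, b, hb, rfl⟩ := Submodule.mem_sup.1 hh
  rw [th_add]
  refine Ideal.add_mem _ ?_ (th_sq hφ hg hS hb)
  clear hh
  induction ha using Submodule.mul_induction_on' with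
  | mem_mul_mem x hx y hy =>
    rw [th_mul hg x (RingHom.mem_ker.1 hy), pow_two]
    refine Ideal.mul_mem_mul (psi_mem hφ hg hS ?_) (th_mem hg hS (RingHom.mem_ker.1 hy))
    exact Ideal.pow_le_self (by omega) hx
  | add x _ y _ hx hy =>
    rw [th_add]
    exact Ideal.add_mem _ hx hy

end Theta

end Pool.Agent.H36.AAE2

namespace Pool.Agent.H85.AAE2

open Pool.Agent.H71.AAE Pool.Agent.H36.AAE2

universe u

section main

variable {k : Type u} [Field k] {N m r : ℕ}
  (φ : (MvPolynomial (Fin N) k)[X] →ₐ[k] MvPolynomial (Fin m) k)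
  {s p : MvPolynomial (Fin N) k}

/-- (MB) the row `d = D(e')` satisfies the hypotheses of the key lemma, and its conclusion -/
theorem apply_star (hφ : Function.Surjective φ) (hg : φ X ^ 2 = φ (C s) * φ X - φ (C p))
    (hS : ∀ b, ∃ α β : MvPolynomial (Fin N) k, b = φ (C α) + φ (C β) * φ X) (l : ℕ) (hl : 2 ≤ l)
    (hdim : TrLE k r (MvPolynomial (Fin m) k ⧸ (cond φ) ^ l)) (hstar : Star k r m)
    (e : Fin (r + 3) → (MvPolynomial (Fin N) k)[X]) (he : ∀ i, φ (e i) = 0)
    (hgen : RingHom.ker φ ≤ Ideal.span (Set.range e) ⊔ (RingHom.ker φ) ^ 2)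
    (h0 : aa s p - e 0 ∈ (cond φ ^ l).comap φ * RingHom.ker φ ⊔ (RingHom.ker φ) ^ 2)
    (hj : ∀ j : Fin (r + 2), ∃ β γ : MvPolynomial (Fin N) k, φ (C β * X + C γ) = 0 ∧
        C β * X + C γ - e j.succ ∈
          (cond φ ^ l).comap φ * RingHom.ker φ ⊔ (RingHom.ker φ) ^ 2) :
    ∃ e' : Fin (r + 3) → (MvPolynomial (Fin N) k)[X], (∀ i, φ (e' i) = 0) ∧
      RingHom.ker φ ≤ Ideal.span (Set.range e') ⊔ (RingHom.ker φ) ^ 2 ∧
      aa s p - e' 0 ∈ (cond φ ^ l).comap φ * RingHom.ker φ ⊔ (RingHom.ker φ) ^ 2 ∧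
      (∀ j : Fin (r + 2), ∃ β γ : MvPolynomial (Fin N) k, φ (C β * X + C γ) = 0 ∧
        C β * X + C γ - e' j.succ ∈
          (cond φ ^ l).comap φ * RingHom.ker φ ⊔ (RingHom.ker φ) ^ 2) ∧
      tl (fun i => φ (derivative (e' i))) = cond φ := by
  classical
  set c := cond φ with hc
  set J := (c ^ l).comap φ * RingHom.ker φ ⊔ (RingHom.ker φ) ^ 2 with hJ
  set d : Fin (r + 3) → MvPolynomial (Fin m) k := fun i => φ (derivative (e i)) with hd
  -- `d_j` lies in `c`
  have hdj : ∀ j : Fin (r + 2), ∃ t ∈ c, t - d j.succ ∈ c ^ l ∧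
      t - Th (φ : (MvPolynomial (Fin N) k)[X] →+* MvPolynomial (Fin m) k) (aa s p) (e j.succ) ∈
        c ^ 2 := by
    intro j
    obtain ⟨β, γ, h1, h2⟩ := hj j
    have h3 : Th (φ : (MvPolynomial (Fin N) k)[X] →+* MvPolynomial (Fin m) k) (aa s p)
        (C β * X + C γ) = φ (C β) := th_lin _ _
    refine ⟨φ (C β), h3 ▸ th_mem hg hS h1, ?_, ?_⟩
    · have h4 := d_err h2
      have h5 : φ (derivative (C β * X + C γ - e j.succ)) = φ (C β) - d j.succ := by
        rw [derivative_sub, map_sub]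
        simp [hd]
      rwa [h5] at h4
    · have h4 := th_err (s := s) (p := p) hφ hg hS (by omega : 1 ≤ l) h2
      have h5 := th_add (φ := φ) (s := s) (p := p) (C β * X + C γ - e j.succ) (e j.succ)
      rw [sub_add_cancel, h3] at h5
      rw [h5, add_sub_cancel_right]
      exact h4
  have hlc : c ^ l ≤ c := Ideal.pow_le_self (by omega)
  have hl2 : c ^ l ≤ c ^ 2 := Ideal.pow_le_pow_right hl
  have hdc : ∀ j : Fin (r + 2), d j.succ ∈ c := by
    intro j
    obtain ⟨t, ht, h1, _⟩ := hdj j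
    have := Ideal.sub_mem _ ht (hlc h1)
    rwa [sub_sub_cancel] at this
  have htl : tl d ≤ c := Ideal.span_le.2 (by
    rintro _ ⟨j, rfl⟩
    exact hdc j)
  have hsuc : ∀ j : Fin (r + 2), d j.succ ∈ tl d := fun j => Ideal.subset_span ⟨j, rfl⟩
  -- `c` is contained in `tl d + c ^ 2`
  have hc2 : c ≤ tl d ⊔ c ^ 2 := by
    intro γ hγ
    obtain ⟨ρ, hρ⟩ := hγ 1
    obtain ⟨ρ', hρ'⟩ := hγ (φ X)
    rw [mul_one] at hρ
    have hh : φ (C ρ * X + C (-ρ')) = 0 := by
      rw [map_add, map_mul, C_neg, map_neg, hρ, hρ']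
      ring
    have h1 : Th (φ : (MvPolynomial (Fin N) k)[X] →+* MvPolynomial (Fin m) k) (aa s p)
        (C ρ * X + C (-ρ')) = γ := by rw [th_lin, hρ]
    obtain ⟨y, hy, z, hz, hyz⟩ := Submodule.mem_sup.1 (hgen (RingHom.mem_ker.2 hh))
    obtain ⟨x, hx⟩ := (Ideal.mem_span_range_iff_exists_fun).1 hy
    rw [← h1, ← hyz, th_add]
    refine Ideal.add_mem _ ?_ (Ideal.mem_sup_right (th_sq hφ hg hS hz))
    rw [← hx, th_sum]
    refine Ideal.sum_mem _ fun i _ => ?_
    rw [th_mul hg _ (he i)]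
    refine Ideal.mul_mem_left _ _ ?_
    refine Fin.cases ?_ (fun j => ?_) i
    · have h4 := th_err (s := s) (p := p) hφ hg hS (by omega : 1 ≤ l) h0
      have h5 := th_add (φ := φ) (s := s) (p := p) (aa s p - e 0) (e 0)
      rw [sub_add_cancel, th_aa] at h5
      have h6 : Th (φ : (MvPolynomial (Fin N) k)[X] →+* MvPolynomial (Fin m) k) (aa s p) (e 0) =
          -Th (φ : (MvPolynomial (Fin N) k)[X] →+* MvPolynomial (Fin m) k) (aa s p)
            (aa s p - e 0) := by linear_combination -h5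
      rw [h6]
      exact Ideal.mem_sup_right (neg_mem h4)
    · obtain ⟨t, ht, h2, h3⟩ := hdj j
      have h4 : Th (φ : (MvPolynomial (Fin N) k)[X] →+* MvPolynomial (Fin m) k) (aa s p)
          (e j.succ) = d j.succ + ((t - d j.succ) - (t -
            Th (φ : (MvPolynomial (Fin N) k)[X] →+* MvPolynomial (Fin m) k) (aa s p)
            (e j.succ))) := by ring
      rw [h4]
      exact Ideal.add_mem _ (Ideal.mem_sup_left (hsuc j))
        (Ideal.mem_sup_right (Ideal.sub_mem _ (hl2 h2) h3))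
  -- iteration
  have hc3 : ∀ n : ℕ, c ≤ tl d ⊔ c ^ n * c := by
    intro n
    induction n with
    | zero => rw [pow_zero, Ideal.one_eq_top, Ideal.top_mul]; exact le_sup_right
    | succ n ih =>
      have h1 : c ^ n * c ≤ tl d ⊔ c ^ (n + 1) * c := by
        calc c ^ n * c ≤ c ^ n * (tl d ⊔ c ^ 2) := Ideal.mul_mono_right hc2
          _ = c ^ n * tl d ⊔ c ^ n * c ^ 2 := Ideal.mul_sup _ _ _
          _ ≤ tl d ⊔ c ^ (n + 1) * c := by
            refine sup_le_sup Ideal.mul_le_right (le_of_eq ?_)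
            ring
      exact ih.trans (sup_le le_sup_left h1)
  have hc4 : c = tl d ⊔ c ^ l * c :=
    le_antisymm (hc3 l) (sup_le htl Ideal.mul_le_right)
  -- `c` is contained in `(d)`
  have hcd : c ≤ Ideal.span (Set.range d) := by
    intro γ hγ
    obtain ⟨h, hh1, _, hh3⟩ := theta_surj (φ := φ) (s := s) hγ
    obtain ⟨y, hy, z, hz, hyz⟩ := Submodule.mem_sup.1 (hgen (RingHom.mem_ker.2 hh1))
    obtain ⟨x, hx⟩ := (Ideal.mem_span_range_iff_exists_fun).1 hy
    rw [← hh3, ← hyz, derivative_add, map_add, derivative_sq hz, add_zero, ← hx,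
      derivative_sum, map_sum]
    refine Ideal.sum_mem _ fun i _ => ?_
    rw [d_mul _ (he i)]
    exact Ideal.mul_mem_left _ _ (Ideal.subset_span ⟨i, rfl⟩)
  obtain ⟨E, hE1, hE2⟩ := hstar (c ^ l) c hlc hdim d hcd hc4
  -- lift
  have hlift : ∀ b, ∃ a, φ a = b := hφ
  choose σ hσ using hlift
  set Eh : Fin (r + 3) → Fin (r + 3) → (MvPolynomial (Fin N) k)[X] :=
    fun i j => σ ((E : Matrix _ _ _) i j) with hEh
  set Fh : Fin (r + 3) → Fin (r + 3) → (MvPolynomial (Fin N) k)[X] :=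
    fun i j => σ ((↑E⁻¹ : Matrix _ _ _) i j) with hFh
  set e' : Fin (r + 3) → (MvPolynomial (Fin N) k)[X] := fun j => ∑ i, Eh i j * e i with he'
  have hek : ∀ i, e i ∈ RingHom.ker φ := fun i => RingHom.mem_ker.2 (he i)
  have hdiff : ∀ j, e j - e' j ∈ J := by
    intro j
    have h1 : e j - e' j = ∑ i, ((if i = j then 1 else 0) - Eh i j) * e i := by
      simp only [sub_mul, Finset.sum_sub_distrib, ite_mul, one_mul, zero_mul,
        Finset.sum_ite_eq', Finset.mem_univ, if_true, he']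
    rw [h1]
    refine Ideal.sum_mem _ fun i _ => Ideal.mem_sup_left (Ideal.mul_mem_mul ?_ (hek i))
    rw [Ideal.mem_comap, map_sub, hEh]
    simp only [hσ]
    have h2 := hE1 i j
    rw [← neg_sub, neg_mem_iff]
    convert h2 using 2
    rw [Matrix.one_apply]
    split_ifs <;> simp
  have hgen' : ∀ i, e i ∈ Ideal.span (Set.range e') ⊔ (RingHom.ker φ) ^ 2 := by
    intro i
    have h1 : ∑ j, Fh j i * e' j - e i ∈ (RingHom.ker φ) ^ 2 := by
      have h2 : ∑ j, Fh j i * e' j - e i =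
          ∑ t, (∑ j, Eh t j * Fh j i - (if t = i then 1 else 0)) * e t := by
        simp only [sub_mul, Finset.sum_sub_distrib, ite_mul, one_mul, zero_mul,
          Finset.sum_ite_eq', Finset.mem_univ, if_true, he', Finset.mul_sum, Finset.sum_mul]
        congr 1
        rw [Finset.sum_comm]
        refine Finset.sum_congr rfl fun t _ => Finset.sum_congr rfl fun j _ => ?_
        ring
      rw [h2, pow_two]
      refine Ideal.sum_mem _ fun t _ => Ideal.mul_mem_mul ?_ (hek t)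
      rw [RingHom.mem_ker, map_sub, map_sum]
      simp only [map_mul, hEh, hFh, hσ]
      have h3 : (E : Matrix (Fin (r + 3)) (Fin (r + 3)) (MvPolynomial (Fin m) k)) *
          (↑E⁻¹ : Matrix (Fin (r + 3)) (Fin (r + 3)) (MvPolynomial (Fin m) k)) = 1 :=
        Units.mul_inv E
      have h4 := congrFun (congrFun h3 t) i
      rw [Matrix.mul_apply, Matrix.one_apply] at h4
      rw [h4]
      split_ifs <;> simp
    have h2 : e i = ∑ j, Fh j i * e' j - (∑ j, Fh j i * e' j - e i) := by ring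
    rw [h2]
    refine Ideal.sub_mem _ (Ideal.mem_sup_left ?_) (Ideal.mem_sup_right h1)
    exact Ideal.sum_mem _ fun j _ => Ideal.mul_mem_left _ _ (Ideal.subset_span ⟨j, rfl⟩)
  refine ⟨e', ?_, ?_, ?_, ?_, ?_⟩
  · intro j
    rw [he']
    simp only [map_sum, map_mul, he, mul_zero, Finset.sum_const_zero]
  · refine hgen.trans (sup_le (Ideal.span_le.2 ?_) le_sup_right)
    rintro _ ⟨i, rfl⟩
    exact hgen' i
  · have := Ideal.add_mem _ h0 (hdiff 0)
    rwa [sub_add_sub_cancel] at this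
  · intro j
    obtain ⟨β, γ, h1, h2⟩ := hj j
    refine ⟨β, γ, h1, ?_⟩
    have := Ideal.add_mem _ h2 (hdiff j.succ)
    rwa [sub_add_sub_cancel] at this
  · rw [← hE2]
    congr 1
    funext j
    rw [he']
    simp only [map_sum]
    rw [rmul, Matrix.vecMul, dotProduct]
    refine Finset.sum_congr rfl fun i _ => ?_
    rw [d_mul _ (he i), hEh]
    simp only [hσ]
    rw [mul_comm]

end main

end Pool.Agent.H85.AAE2
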